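import Mathlib
import Pool.Agent.Results.MP_7489b4_an.No

namespace Pool.Agent.Results.MP_fbd0a7_an.Infinite

open Filter Topology Real Pool.Agent.Results.MP_7489b4_an.No

/-- The supremum in `[0, ∞]` of all `c` such that every bounded Lebesgue measurable `f` in the class
`cl` with `limsup w i * r(α; f, T i f) < c` is continuous. -/
noncomputable def sharp {ι : Type} (l : Filter ι) (w : ι → ℝ) (T : ι → (ℝ → ℝ) → ℝ → ℝ)
    (cl : (ℝ → ℝ) → Prop) (α : ℝ) : ENNReal :=
  sSup {c | ∀ f : ℝ → ℝ, AEMeasurable f → (∃ B, ∀ x, |f x| ≤ B) → cl f →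
    limsup (fun i => ENNReal.ofReal (w i) * r α f (T i f)) l < c → Continuous f}

theorem bd {ι : Type} {l : Filter ι} {w : ι → ℝ} {u : ι → ENNReal} (hw : ∀ᶠ i in l, 0 < w i)
    (h : limsup (fun i => ENNReal.ofReal (w i) * u i) l < ⊤) :
    ∃ C : ℝ, ∀ᶠ i in l, u i ≤ .ofReal (C / w i) := by
  obtain ⟨c, h1, h2⟩ := exists_between h
  refine ⟨c.toReal, ?_⟩
  filter_upwards [hw, eventually_lt_of_limsup_lt h1] with i hi h3
  rw [ENNReal.ofReal_div_of_pos hi, ENNReal.ofReal_toReal h2.ne,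
    ENNReal.le_div_iff_mul_le (Or.inl (by simpa using hi)) (Or.inl ENNReal.ofReal_ne_top), mul_comm]
  exact h3.le

/-- The three sharp constants are infinite. -/
theorem result (α : ℝ) (hα : 0 < α) :
    sharp atTop (fun n : ℕ => α * √n) W (fun _ => True) α = ⊤ ∧
    sharp (𝓝[<] 1) (fun ρ : ℝ => α / (1 - ρ)) P (fun f => Function.Periodic f (2 * π)) α = ⊤ ∧
    sharp atTop (fun n : ℕ => α * √n) V (fun f => Function.Periodic f (2 * π)) α = ⊤ := by
  have hw : ∀ᶠ n : ℕ in atTop, 0 < α * √n := by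
    filter_upwards [eventually_gt_atTop 0] with n hn
    positivity
  refine ⟨top_le_iff.1 (le_sSup fun f mf bf _ h => ?_), top_le_iff.1 (le_sSup fun f mf bf _ h => ?_),
    top_le_iff.1 (le_sSup fun f mf bf _ h => ?_)⟩
  · obtain ⟨C, hC⟩ := bd hw h
    exact MP_7489b4_an.No.result α hα f mf bf (Or.inl ⟨C / α, by simpa only [div_div] using hC⟩)
  · obtain ⟨C, hC⟩ := bd (by
      filter_upwards [self_mem_nhdsWithin] with ρ hρ
      exact div_pos hα (sub_pos.2 hρ)) h
    refine MP_7489b4_an.No.result α hα f mf bf (Or.inr (Or.inl ⟨C / α, hC.mono fun ρ h => ?_⟩))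
    rwa [div_div_eq_mul_div, mul_div_right_comm] at h
  · obtain ⟨C, hC⟩ := bd hw h
    exact MP_7489b4_an.No.result α hα f mf bf
      (Or.inr (Or.inr ⟨C / α, by simpa only [div_div] using hC⟩))

end Pool.Agent.Results.MP_fbd0a7_an.Infinite
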